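import Pool.Agent.TH13.NB.Dim

/-! Coefficients of power series in two variables; jets of forms at a formal node. -/

namespace Pool.Agent.TH13.NB

open MvPolynomial Module Pool.Agent.W607 Pool.Agent.TH836.NS

variable {F : Type} [Field F]

theorem xx_eq (d : Fin 2 →₀ ℕ) : xx (d 0) (d 1) = d := by
  ext i
  fin_cases i
  · simp [xx]
  · simp [xx]

theorem xx_zero (a b : ℕ) : xx a b 0 = a := by simp [xx]
theorem xx_one (a b : ℕ) : xx a b 1 = b := by simp [xx]

theorem degree_xx (a b : ℕ) : (xx a b).degree = a + b := by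
  rw [Finsupp.degree_eq_sum, Fin.sum_univ_two, xx_zero, xx_one]

/-- all coefficients in degrees less than `n` vanish -/
def O (n : ℕ) (g : PP F) : Prop := ∀ a b : ℕ, a + b < n → cc g a b = 0

theorem O_iff {n : ℕ} {g : PP F} : O n g ↔ (n : ℕ∞) ≤ g.order := by
  constructor
  · intro h
    apply MvPowerSeries.nat_le_order
    intro d hd
    have := h (d 0) (d 1) (by
      rw [Finsupp.degree_eq_sum, Fin.sum_univ_two] at hd; exact hd)
    rwa [cc, xx_eq] at this
  · intro h a b hab
    apply MvPowerSeries.coeff_of_lt_order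
    rw [degree_xx]
    exact lt_of_lt_of_le (by exact_mod_cast hab) h

theorem O.mul {n m : ℕ} {f g : PP F} (hf : O n f) (hg : O m g) : O (n + m) (f * g) := by
  rw [O_iff] at *
  push_cast
  exact (add_le_add hf hg).trans MvPowerSeries.le_order_mul

theorem cc_add (f g : PP F) (a b : ℕ) : cc (f + g) a b = cc f a b + cc g a b := map_add _ _ _
theorem cc_sub (f g : PP F) (a b : ℕ) : cc (f - g) a b = cc f a b - cc g a b := map_sub _ _ _
theorem cc_zero (a b : ℕ) : cc (0 : PP F) a b = 0 := map_zero _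
theorem cc_smul (c : F) (f : PP F) (a b : ℕ) : cc (c • f) a b = c * cc f a b := by
  simp [cc]

theorem O.add {n : ℕ} {f g : PP F} (hf : O n f) (hg : O n g) : O n (f + g) := by
  intro a b hab; rw [cc_add, hf a b hab, hg a b hab, add_zero]

theorem O.mono {n m : ℕ} {f : PP F} (hf : O n f) (h : m ≤ n) : O m f :=
  fun a b hab => hf a b (by omega)

theorem O.sum {κ : Type*} (s : Finset κ) (f : κ → PP F) {n : ℕ} (h : ∀ k ∈ s, O n (f k)) :
    O n (∑ k ∈ s, f k) := by
  intro a b hab
  rw [cc, map_sum]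
  exact Finset.sum_eq_zero fun k hk => h k hk a b hab

theorem O.smul {n : ℕ} {f : PP F} (hf : O n f) (c : F) : O n (c • f) := by
  intro a b hab; rw [cc_smul, hf a b hab, mul_zero]

/-- coefficients of monomials -/
theorem cc_mon (a b a' b' : ℕ) :
    cc ((MvPowerSeries.X 0 : PP F) ^ a * MvPowerSeries.X 1 ^ b) a' b' = if a' = a ∧ b' = b then 1 else 0 := by
  classical
  have h : (MvPowerSeries.X 0 : PP F) ^ a * MvPowerSeries.X 1 ^ b = MvPowerSeries.monomial (xx a b) 1 := by
    rw [MvPowerSeries.X_pow_eq, MvPowerSeries.X_pow_eq, MvPowerSeries.monomial_mul_monomial, mul_one, xx]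
  rw [h, cc, MvPowerSeries.coeff_monomial]
  congr 1
  apply propext
  constructor
  · intro h
    have h0 := DFunLike.congr_fun h 0
    have h1 := DFunLike.congr_fun h 1
    rw [xx_zero, xx_zero] at h0
    rw [xx_one, xx_one] at h1
    exact ⟨h0, h1⟩
  · rintro ⟨rfl, rfl⟩; rfl

theorem O_X (i : Fin 2) : O 1 (MvPowerSeries.X i : PP F) := by
  rw [O_iff]
  apply MvPowerSeries.nat_le_order
  intro d hd
  have : d = 0 := by
    rw [Nat.lt_one_iff] at hd
    exact (Finsupp.degree_eq_zero_iff d).1 hd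
  subst this
  simp

theorem O_zero (g : PP F) : O 0 g := fun _ _ h => by omega

theorem O_pow {n : ℕ} {g : PP F} (hg : O n g) (a : ℕ) : O (a * n) (g ^ a) := by
  induction a with
  | zero => simpa using O_zero _
  | succ a ih =>
    rw [pow_succ, show (a + 1) * n = a * n + n by ring]
    exact ih.mul hg

theorem mon_diff {f g : PP F} (hf : O 2 (f - MvPowerSeries.X 0)) (hg : O 2 (g - MvPowerSeries.X 1))
    (a b : ℕ) : O (a + b + 1) (f ^ a * g ^ b - MvPowerSeries.X 0 ^ a * MvPowerSeries.X 1 ^ b) := by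
  have hf1 : O 1 f := by
    have := (hf.mono (by norm_num : 1 ≤ 2)).add (O_X 0)
    simpa using this
  have hg1 : O 1 g := by
    have := (hg.mono (by norm_num : 1 ≤ 2)).add (O_X 1)
    simpa using this
  induction a with
  | zero =>
    induction b with
    | zero => intro a b _; simp [cc_zero]
    | succ b ih =>
      have e : f ^ 0 * g ^ (b + 1) - MvPowerSeries.X 0 ^ 0 * MvPowerSeries.X 1 ^ (b + 1) =
        g * (f ^ 0 * g ^ b - MvPowerSeries.X 0 ^ 0 * MvPowerSeries.X 1 ^ b) +
          (g - MvPowerSeries.X 1) * MvPowerSeries.X 1 ^ b := by ring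
      rw [e]
      refine O.add ?_ ?_
      · exact (hg1.mul ih).mono (by omega)
      · exact (hg.mul (O_pow (O_X 1) b)).mono (by omega)
  | succ a ih =>
    have e : f ^ (a + 1) * g ^ b - MvPowerSeries.X 0 ^ (a + 1) * MvPowerSeries.X 1 ^ b =
      f * (f ^ a * g ^ b - MvPowerSeries.X 0 ^ a * MvPowerSeries.X 1 ^ b) +
        (f - MvPowerSeries.X 0) * (MvPowerSeries.X 0 ^ a * MvPowerSeries.X 1 ^ b) := by ring
    rw [e]
    refine O.add ?_ ?_
    · exact (hf1.mul ih).mono (by omega)
    · exact (hf.mul ((O_pow (O_X 0) a).mul (O_pow (O_X 1) b))).mono (by omega)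

/-- coefficients on the first branch -/
theorem cc_mul_left (f g : PP F) (a : ℕ) :
    cc (f * g) a 0 = ∑ p ∈ Finset.HasAntidiagonal.antidiagonal a, cc f p.1 0 * cc g p.2 0 := by
  classical
  rw [cc, MvPowerSeries.coeff_mul]
  have h : xx a 0 = Finsupp.single 0 a := by simp [xx]
  rw [h, Finsupp.antidiagonal_single, Finset.sum_map]
  apply Finset.sum_congr rfl
  rintro ⟨i, j⟩ _
  simp [cc, xx]

theorem cc_mul_right (f g : PP F) (b : ℕ) :
    cc (f * g) 0 b = ∑ p ∈ Finset.HasAntidiagonal.antidiagonal b, cc f 0 p.1 * cc g 0 p.2 := by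
  classical
  rw [cc, MvPowerSeries.coeff_mul]
  have h : xx 0 b = Finsupp.single 1 b := by simp [xx]
  rw [h, Finsupp.antidiagonal_single, Finset.sum_map]
  apply Finset.sum_congr rfl
  rintro ⟨i, j⟩ _
  simp [cc, xx]

theorem cc_uv_mul_left (g : PP F) (a : ℕ) : cc (uv F * g) a 0 = 0 := by
  rw [cc_mul_left]
  apply Finset.sum_eq_zero
  rintro ⟨i, j⟩ _
  have := cc_mon (F := F) 1 1 i 0
  simp only [pow_one] at this
  rw [uv, this, if_neg (by simp), zero_mul]

theorem cc_uv_mul_right (g : PP F) (a : ℕ) : cc (uv F * g) 0 a = 0 := by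
  rw [cc_mul_right]
  apply Finset.sum_eq_zero
  rintro ⟨i, j⟩ _
  have := cc_mon (F := F) 1 1 0 i
  simp only [pow_one] at this
  rw [uv, this, if_neg (by simp), zero_mul]

end Pool.Agent.TH13.NB
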