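import Mathlib

/-! Bezout's inequality for the two branches of a node, by counting dimensions. -/

namespace Pool.Agent.TH13.NB

open Filter Topology Module

/-- a double telescoping sum -/
theorem box_le {D : ℕ → ℝ} {q k : ℕ} {c : ℝ} {M : ℕ}
    (h : ∀ i j : ℕ, c ≤ D (M + i * q + j * k + q + k) - D (M + i * q + j * k + k)
      - D (M + i * q + j * k + q) + D (M + i * q + j * k)) (A B : ℕ) :
    (A : ℝ) * B * c ≤ D (M + A * q + B * k) - D (M + B * k) - D (M + A * q) + D M := by
  have h1 : ∀ (i B : ℕ), (B : ℝ) * c ≤ D (M + i * q + B * k + q) - D (M + i * q + B * k)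
      - D (M + i * q + q) + D (M + i * q) := by
    intro i B
    induction B with
    | zero => simp
    | succ B ih =>
      have h2 := h i B
      have e1 : M + i * q + (B + 1) * k + q = M + i * q + B * k + q + k := by ring
      have e2 : M + i * q + (B + 1) * k = M + i * q + B * k + k := by ring
      rw [e1, e2]
      push_cast
      linarith
  induction A with
  | zero => simp
  | succ A ih =>
    have h2 := h1 A B
    have e1 : M + (A + 1) * q + B * k = M + A * q + B * k + q := by ring
    have e2 : M + (A + 1) * q = M + A * q + q := by ring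
    rw [e1, e2]
    push_cast
    linarith

/-- the growth lemma -/
theorem count_le {D : ℕ → ℝ} {δ : ℝ} (hD : Tendsto (fun d : ℕ => 2 * D d / (d : ℝ) ^ 2) atTop (𝓝 δ))
    {q k : ℕ} (hq : 0 < q) (hk : 0 < k) {c : ℝ} {M : ℕ}
    (h : ∀ i j : ℕ, c ≤ D (M + i * q + j * k + q + k) - D (M + i * q + j * k + k)
      - D (M + i * q + j * k + q) + D (M + i * q + j * k)) :
    c ≤ k * q * δ := by
  have hq' : (0 : ℝ) < q := by exact_mod_cast hq
  have hk' : (0 : ℝ) < k := by exact_mod_cast hk
  have hK : 0 < k * q := Nat.mul_pos hk hq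
  -- limits along arithmetic progressions
  have hlim : ∀ r : ℕ, 0 < r → Tendsto (fun N : ℕ => D (M + N * r) / (N : ℝ) ^ 2) atTop
      (𝓝 (δ / 2 * (r : ℝ) ^ 2)) := by
    intro r hr
    have hr' : (0 : ℝ) < r := by exact_mod_cast hr
    have h1 : Tendsto (fun N : ℕ => M + N * r) atTop atTop := by
      apply tendsto_atTop_mono (f := fun N : ℕ => N)
      · intro N
        have : N * 1 ≤ N * r := Nat.mul_le_mul_left N hr
        omega
      · exact tendsto_id
    have h2 := hD.comp h1
    have h3 : Tendsto (fun N : ℕ => ((M + N * r : ℕ) : ℝ) / (N : ℝ)) atTop (𝓝 (r : ℝ)) := by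
      have h4 : Tendsto (fun N : ℕ => (M : ℝ) / (N : ℝ) + r) atTop (𝓝 (0 + r)) :=
        (tendsto_const_div_atTop_nhds_zero_nat (M : ℝ)).add tendsto_const_nhds
      rw [zero_add] at h4
      refine h4.congr' ?_
      filter_upwards [eventually_gt_atTop 0] with N hN
      have : (N : ℝ) ≠ 0 := by positivity
      push_cast
      field_simp
    have h5 := (h2.mul (h3.pow 2)).div_const 2
    have e : δ * (r : ℝ) ^ 2 / 2 = δ / 2 * (r : ℝ) ^ 2 := by ring
    rw [e] at h5
    refine h5.congr' ?_
    filter_upwards [eventually_gt_atTop 0] with N hN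
    have hN' : (N : ℝ) ≠ 0 := by positivity
    have hM' : ((M + N * r : ℕ) : ℝ) ≠ 0 := by
      have : 0 < M + N * r := by positivity
      exact_mod_cast this.ne'
    simp only [Function.comp]
    field_simp
  have l1 := hlim (2 * (k * q)) (by omega)
  have l2 := hlim (k * q) hK
  have l3 : Tendsto (fun N : ℕ => D M / (N : ℝ) ^ 2) atTop (𝓝 0) := by
    have : Tendsto (fun N : ℕ => (N : ℝ) ^ 2) atTop atTop :=
      (tendsto_pow_atTop two_ne_zero).comp tendsto_natCast_atTop_atTop
    exact this.const_div_atTop _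
  have l4 := (l1.sub (l2.const_mul 2)).add l3
  have l5 : (k : ℝ) * q * c ≤ δ / 2 * ((2 * (k * q) : ℕ) : ℝ) ^ 2 - 2 * (δ / 2 * ((k * q : ℕ) : ℝ) ^ 2) + 0 := by
    refine ge_of_tendsto l4 ?_
    filter_upwards [eventually_gt_atTop 0] with N hN
    have hN' : (0 : ℝ) < N := by exact_mod_cast hN
    have h6 := box_le h (N * k) (N * q)
    have e1 : M + N * k * q + N * q * k = M + N * (2 * (k * q)) := by ring
    have e2 : M + N * q * k = M + N * (k * q) := by ring
    have e3 : M + N * k * q = M + N * (k * q) := by ring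
    rw [e1, e2, e3] at h6
    push_cast at h6
    have h7 : D (M + N * (2 * (k * q))) / (N : ℝ) ^ 2 - 2 * (D (M + N * (k * q)) / (N : ℝ) ^ 2) +
        D M / (N : ℝ) ^ 2 = (D (M + N * (2 * (k * q))) - D (M + N * (k * q)) - D (M + N * (k * q)) + D M) /
          (N : ℝ) ^ 2 := by ring
    rw [h7, le_div_iff₀ (by positivity)]
    calc (k : ℝ) * q * c * (N : ℝ) ^ 2 = N * k * (N * q) * c := by ring
      _ ≤ _ := h6
  push_cast at l5
  have l6 : (k : ℝ) * q * c ≤ (k * q) * (k * q * δ) := by nlinarith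
  exact le_of_mul_le_mul_left (by linarith) (mul_pos hk' hq')

section graded

variable {F S : Type*} [Field F] [CommRing S] [IsDomain S] [Algebra F S]
  (A : ℕ → Submodule F S) [GradedAlgebra A]

theorem mem_of_mul_mem {k m : ℕ} {h w : S} (hh : h ∈ A k) (h0 : h ≠ 0) (hw : h * w ∈ A (k + m)) :
    w ∈ A m := by
  classical
  have e1 : ((DirectSum.decompose A (h * w) (k + m) : A (k + m)) : S) =
      h * (DirectSum.decompose A w m : A m) := DirectSum.coe_decompose_mul_add_of_left_mem A hh
  rw [DirectSum.decompose_of_mem_same A hw] at e1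
  have e2 := mul_left_cancel₀ h0 e1
  rw [e2]
  exact SetLike.coe_mem _

variable [∀ d, FiniteDimensional F (A d)]

omit [GradedAlgebra A] [∀ d, FiniteDimensional F (A d)] in
theorem finrank_map_mul {g : S} (h0 : g ≠ 0) (d : ℕ) :
    finrank F ((A d).map (LinearMap.mulLeft F g)) = finrank F (A d) := by
  have hinj : Function.Injective (LinearMap.mulLeft F g) := by
    intro x y hxy
    exact mul_left_cancel₀ h0 hxy
  exact (Submodule.equivMapOfInjective _ hinj (A d)).symm.finrank_eq

theorem step_le {k q M : ℕ} {h G : S} (hh : h ∈ A k) (hp : Prime h) (hG : G ∈ A q)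
    (hGh : ¬ h ∣ G) (al be : S →ₐ[F] PowerSeries F) (h1 : al h = 0) (h2 : be h = 0) {a b : ℕ}
    (ha : ∀ i < a, PowerSeries.coeff i (al G) = 0) (hb : ∀ i < b, PowerSeries.coeff i (be G) = 0)
    (hjet : ∀ P Q : PowerSeries F, PowerSeries.constantCoeff P = PowerSeries.constantCoeff Q →
      ∃ x ∈ A (M + q + k), (∀ i < a, PowerSeries.coeff i (al x) = PowerSeries.coeff i P) ∧
        (∀ i < b, PowerSeries.coeff i (be x) = PowerSeries.coeff i Q)) :
    ((a : ℝ) + b - 1) ≤ (finrank F (A (M + q + k)) : ℝ) - finrank F (A (M + k))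
      - finrank F (A (M + q)) + finrank F (A M) := by
  classical
  have h0 : h ≠ 0 := hp.ne_zero
  have G0 : G ≠ 0 := fun hc => hGh (hc ▸ dvd_zero h)
  set U : Submodule F S := (A (M + q)).map (LinearMap.mulLeft F h) with hU
  set W : Submodule F S := (A (M + k)).map (LinearMap.mulLeft F G) with hW
  have hUle : U ≤ A (M + q + k) := by
    rintro _ ⟨y, hy, rfl⟩
    have := SetLike.mul_mem_graded hh hy
    rwa [show k + (M + q) = M + q + k by ring] at this
  have hWle : W ≤ A (M + q + k) := by
    rintro _ ⟨y, hy, rfl⟩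
    have := SetLike.mul_mem_graded hG hy
    rwa [show q + (M + k) = M + q + k by ring] at this
  have hUW : U ⊓ W ≤ (A M).map (LinearMap.mulLeft F (G * h)) := by
    rintro _ ⟨⟨y, hy, rfl⟩, ⟨z, hz, hzy⟩⟩
    simp only [LinearMap.mulLeft_apply] at hzy ⊢
    have hd : h ∣ G * z := ⟨y, hzy⟩
    obtain ⟨w, rfl⟩ := (hp.dvd_or_dvd hd).resolve_left hGh
    refine ⟨w, ?_, ?_⟩
    · apply mem_of_mul_mem A hh h0
      rwa [show k + M = M + k by ring]
    · simp only [LinearMap.mulLeft_apply]
      rw [← hzy]; ring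
  have : FiniteDimensional F U := Submodule.finiteDimensional_of_le hUle
  have : FiniteDimensional F W := Submodule.finiteDimensional_of_le hWle
  have f1 : finrank F U = finrank F (A (M + q)) := finrank_map_mul A h0 _
  have f2 : finrank F W = finrank F (A (M + k)) := finrank_map_mul A G0 _
  have f3 : finrank F (U ⊓ W : Submodule F S) ≤ finrank F (A M) := by
    rw [← finrank_map_mul A (mul_ne_zero G0 h0) M]
    exact Submodule.finrank_mono hUW
  have f4 := Submodule.finrank_sup_add_finrank_inf_eq U W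
  -- the map to the jets
  let Θ : S →ₗ[F] (Fin a → F) × (Fin b → F) :=
    { toFun := fun x => (fun i => PowerSeries.coeff i.1 (al x), fun i => PowerSeries.coeff i.1 (be x))
      map_add' := by intro x y; ext <;> simp
      map_smul' := by intro c x; ext <;> simp }
  let Θ' := Θ.domRestrict (A (M + q + k))
  -- the kernel
  have f5 : finrank F (U ⊔ W : Submodule F S) ≤ finrank F (LinearMap.ker Θ') := by
    have hle : U ⊔ W ≤ (LinearMap.ker Θ').map (A (M + q + k)).subtype := by
      apply sup_le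
      · intro x hx
        refine ⟨⟨x, hUle hx⟩, ?_, rfl⟩
        obtain ⟨y, hy, rfl⟩ := hx
        simp only [SetLike.mem_coe, LinearMap.mem_ker]
        change Θ (h * y) = 0
        ext i <;> simp [Θ, h1, h2]
      · intro x hx
        refine ⟨⟨x, hWle hx⟩, ?_, rfl⟩
        obtain ⟨y, hy, rfl⟩ := hx
        simp only [SetLike.mem_coe, LinearMap.mem_ker]
        change Θ (G * y) = 0
        have g1 : PowerSeries.X ^ a ∣ al G := PowerSeries.X_pow_dvd_iff.2 ha
        have g2 : PowerSeries.X ^ b ∣ be G := PowerSeries.X_pow_dvd_iff.2 hb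
        ext i
        · have := PowerSeries.X_pow_dvd_iff.1 (dvd_mul_of_dvd_left g1 (al y)) i.1 i.2
          simpa [Θ] using this
        · have := PowerSeries.X_pow_dvd_iff.1 (dvd_mul_of_dvd_left g2 (be y)) i.1 i.2
          simpa [Θ] using this
    calc finrank F (U ⊔ W : Submodule F S) ≤ finrank F ((LinearMap.ker Θ').map (A (M + q + k)).subtype) :=
          Submodule.finrank_mono hle
      _ = finrank F (LinearMap.ker Θ') :=
        (Submodule.equivMapOfInjective _ (Submodule.injective_subtype _) _).symm.finrank_eq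
  -- the range
  have f6 : a + b ≤ finrank F (LinearMap.range Θ') + 1 := by
    let lam : ((Fin a → F) × (Fin b → F)) →ₗ[F] F :=
      if hab : 0 < a ∧ 0 < b then
        (LinearMap.proj (R := F) (φ := fun _ : Fin a => F) ⟨0, hab.1⟩) ∘ₗ LinearMap.fst F _ _ -
          (LinearMap.proj (R := F) (φ := fun _ : Fin b => F) ⟨0, hab.2⟩) ∘ₗ LinearMap.snd F _ _
      else 0
    have hker : LinearMap.ker lam ≤ LinearMap.range Θ' := by
      rintro ⟨p, r⟩ hpr
      obtain ⟨P, Q, hPQ, hP, hQ⟩ : ∃ P Q : PowerSeries F,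
          PowerSeries.constantCoeff P = PowerSeries.constantCoeff Q ∧
          (∀ i : Fin a, PowerSeries.coeff i.1 P = p i) ∧ (∀ i : Fin b, PowerSeries.coeff i.1 Q = r i) := by
        let P0 : PowerSeries F := PowerSeries.mk (fun i => if hi : i < a then p ⟨i, hi⟩ else
          if hb0 : 0 < b then r ⟨0, hb0⟩ else 0)
        let Q0 : PowerSeries F := PowerSeries.mk (fun i => if hi : i < b then r ⟨i, hi⟩ else
          if ha0 : 0 < a then p ⟨0, ha0⟩ else 0)
        refine ⟨P0, Q0, ?_, ?_, ?_⟩
        · rw [← PowerSeries.coeff_zero_eq_constantCoeff_apply, ← PowerSeries.coeff_zero_eq_constantCoeff_apply]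
          simp only [P0, Q0, PowerSeries.coeff_mk]
          by_cases ha0 : 0 < a
          · by_cases hb0 : 0 < b
            · simp only [ha0, hb0, dite_true]
              have : lam (p, r) = 0 := hpr
              simp only [lam, ha0, hb0, and_self, dite_true, LinearMap.sub_apply, LinearMap.comp_apply,
                LinearMap.fst_apply, LinearMap.snd_apply, LinearMap.proj_apply] at this
              exact sub_eq_zero.1 this
            · simp [ha0, hb0]
          · by_cases hb0 : 0 < b
            · simp [ha0, hb0]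
            · simp [ha0, hb0]
        · intro i; simp [P0]
        · intro i; simp [Q0]
      obtain ⟨x, hx, hx1, hx2⟩ := hjet P Q hPQ
      refine ⟨⟨x, hx⟩, ?_⟩
      change Θ x = (p, r)
      ext i
      · simp only [Θ, LinearMap.coe_mk, AddHom.coe_mk]
        rw [hx1 i.1 i.2, hP]
      · simp only [Θ, LinearMap.coe_mk, AddHom.coe_mk]
        rw [hx2 i.1 i.2, hQ]
    have g1 := LinearMap.finrank_range_add_finrank_ker lam
    have g2 : finrank F (LinearMap.range lam) ≤ 1 := by
      calc finrank F (LinearMap.range lam) ≤ finrank F F := Submodule.finrank_le _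
        _ = 1 := finrank_self F
    have g3 : finrank F ((Fin a → F) × (Fin b → F)) = a + b := by
      rw [finrank_prod]; simp
    have g4 := Submodule.finrank_mono hker
    omega
  have f7 := LinearMap.finrank_range_add_finrank_ker Θ'
  have f8 : a + b + finrank F (A (M + q)) + finrank F (A (M + k)) ≤
      finrank F (A (M + q + k)) + finrank F (A M) + 1 := by omega
  have f9 : ((a + b + finrank F (A (M + q)) + finrank F (A (M + k)) : ℕ) : ℝ) ≤
      ((finrank F (A (M + q + k)) + finrank F (A M) + 1 : ℕ) : ℝ) := by exact_mod_cast f8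
  push_cast at f9
  linarith

/-- Bezout's inequality for the two branches -/
theorem bez {δ : ℝ} (hD : Tendsto (fun d : ℕ => 2 * (finrank F (A d) : ℝ) / (d : ℝ) ^ 2) atTop (𝓝 δ))
    {k e : ℕ} (hk : 0 < k) (he : 0 < e) (hek : e ∣ k) {h : S} (hh : h ∈ A k) (hp : Prime h)
    (al be : S →ₐ[F] PowerSeries F) (h1 : al h = 0) (h2 : be h = 0)
    (hjet : ∀ N : ℕ, ∃ M0 : ℕ, ∀ M ≥ M0, e ∣ M → ∀ P Q : PowerSeries F,
      PowerSeries.constantCoeff P = PowerSeries.constantCoeff Q →
      ∃ x ∈ A M, (∀ i < N, PowerSeries.coeff i (al x) = PowerSeries.coeff i P) ∧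
        (∀ i < N, PowerSeries.coeff i (be x) = PowerSeries.coeff i Q))
    {m : ℕ} {g : S} (hg : g ∈ A m) (hgh : ¬ h ∣ g) {a b : ℕ}
    (ha : ∀ i < a, PowerSeries.coeff i (al g) = 0) (hb : ∀ i < b, PowerSeries.coeff i (be g) = 0) :
    (a + b : ℝ) ≤ k * δ * m := by
  -- the inequality for powers
  have key : ∀ s : ℕ, 0 < s → ((e * s : ℕ) : ℝ) * (a + b) - 1 ≤ k * δ * m * (e * s : ℕ) := by
    intro s hs
    set r := e * s with hr
    have hr0 : 0 < r := Nat.mul_pos he hs
    have hG : g ^ r ∈ A (r * m) := by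
      have := SetLike.pow_mem_graded r hg
      simpa using this
    have hGh : ¬ h ∣ g ^ r := fun hc => hgh (hp.dvd_of_dvd_pow hc)
    have ha' : ∀ i < r * a, PowerSeries.coeff i (al (g ^ r)) = 0 := by
      apply PowerSeries.X_pow_dvd_iff.1
      rw [map_pow, mul_comm r a, pow_mul]
      exact pow_dvd_pow_of_dvd (PowerSeries.X_pow_dvd_iff.2 ha) r
    have hb' : ∀ i < r * b, PowerSeries.coeff i (be (g ^ r)) = 0 := by
      apply PowerSeries.X_pow_dvd_iff.1
      rw [map_pow, mul_comm r b, pow_mul]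
      exact pow_dvd_pow_of_dvd (PowerSeries.X_pow_dvd_iff.2 hb) r
    obtain ⟨M0, hM0⟩ := hjet (r * a + r * b)
    have hstep : ∀ M : ℕ, M0 ≤ M → e ∣ M → ((r * a : ℕ) : ℝ) + (r * b : ℕ) - 1 ≤
        (finrank F (A (M + r * m + k)) : ℝ) - finrank F (A (M + k))
        - finrank F (A (M + r * m)) + finrank F (A M) := by
      intro M hM heM
      refine step_le A hh hp hG hGh al be h1 h2 ha' hb' ?_
      intro P Q hPQ
      have hdiv : e ∣ M + r * m + k :=
        dvd_add (dvd_add heM (Dvd.dvd.mul_right (Dvd.intro _ rfl) m)) hek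
      obtain ⟨x, hx, hx1, hx2⟩ := hM0 (M + r * m + k) (by omega) hdiv P Q hPQ
      exact ⟨x, hx, fun i hi => hx1 i (by omega), fun i hi => hx2 i (by omega)⟩
    rcases Nat.eq_zero_or_pos m with rfl | hm
    · have h3 := hstep (e * M0) (Nat.le_mul_of_pos_left M0 he) (Dvd.intro _ rfl)
      have e1 : e * M0 + r * 0 + k = e * M0 + k := by ring
      have e2 : e * M0 + r * 0 = e * M0 := by ring
      rw [e1, e2] at h3
      push_cast at h3 ⊢
      linarith
    · have h3 := count_le hD (q := r * m) (k := k) (Nat.mul_pos hr0 hm) hk (M := e * M0)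
        (c := ((r * a : ℕ) : ℝ) + (r * b : ℕ) - 1) (by
          intro i j
          have h4 := hstep (e * M0 + i * (r * m) + j * k) (by
              have := Nat.le_mul_of_pos_left M0 he
              omega) (by
              refine dvd_add (dvd_add (Dvd.intro _ rfl) ?_) (Dvd.dvd.mul_left hek j)
              exact Dvd.dvd.mul_left (Dvd.dvd.mul_right (Dvd.intro _ rfl) m) i)
          linarith)
      push_cast at h3 ⊢
      linarith
  by_contra hc
  push Not at hc
  obtain ⟨s, hs⟩ := exists_nat_gt (1 / ((a + b : ℝ) - k * δ * m))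
  have hpos : 0 < (a + b : ℝ) - k * δ * m := by linarith
  have hs0 : 0 < s := by
    rcases Nat.eq_zero_or_pos s with rfl | h
    · exfalso
      have := one_div_pos.2 hpos
      simp only [Nat.cast_zero] at hs
      linarith
    · exact h
  have h5 := key s hs0
  rw [div_lt_iff₀ hpos] at hs
  push_cast at h5
  have he1 : (1 : ℝ) ≤ e := by exact_mod_cast he
  have h6 : (s : ℝ) * ((a + b : ℝ) - k * δ * m) ≤ e * (s * ((a + b : ℝ) - k * δ * m)) := by
    have : 0 ≤ (s : ℝ) * ((a + b : ℝ) - k * δ * m) := by positivity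
    nlinarith
  nlinarith

/-- an element which vanishes on one branch is divisible by `h` -/
theorem dvd_of_al {δ : ℝ} (hD : Tendsto (fun d : ℕ => 2 * (finrank F (A d) : ℝ) / (d : ℝ) ^ 2) atTop (𝓝 δ))
    {k e : ℕ} (hk : 0 < k) (he : 0 < e) (hek : e ∣ k) {h : S} (hh : h ∈ A k) (hp : Prime h)
    (al be : S →ₐ[F] PowerSeries F) (h1 : al h = 0) (h2 : be h = 0)
    (hjet : ∀ N : ℕ, ∃ M0 : ℕ, ∀ M ≥ M0, e ∣ M → ∀ P Q : PowerSeries F,
      PowerSeries.constantCoeff P = PowerSeries.constantCoeff Q →
      ∃ x ∈ A M, (∀ i < N, PowerSeries.coeff i (al x) = PowerSeries.coeff i P) ∧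
        (∀ i < N, PowerSeries.coeff i (be x) = PowerSeries.coeff i Q))
    {m : ℕ} {g : S} (hg : g ∈ A m) (h0 : al g = 0 ∨ be g = 0) : h ∣ g := by
  by_contra hgh
  obtain ⟨N, hN⟩ := exists_nat_gt (k * δ * m)
  rcases h0 with h0 | h0
  · have := bez A hD hk he hek hh hp al be h1 h2 hjet hg hgh (a := N) (b := 0)
      (by intro i _; simp [h0]) (by intro i hi; omega)
    push_cast at this
    linarith
  · have := bez A hD hk he hek hh hp al be h1 h2 hjet hg hgh (a := 0) (b := N)
      (by intro i hi; omega) (by intro i _; simp [h0])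
    push_cast at this
    linarith

/-- Bezout's inequality for the orders on the two branches -/
theorem bez_order {δ : ℝ}
    (hD : Tendsto (fun d : ℕ => 2 * (finrank F (A d) : ℝ) / (d : ℝ) ^ 2) atTop (𝓝 δ))
    {k e : ℕ} (hk : 0 < k) (he : 0 < e) (hek : e ∣ k) {h : S} (hh : h ∈ A k) (hp : Prime h)
    (al be : S →ₐ[F] PowerSeries F) (h1 : al h = 0) (h2 : be h = 0)
    (hjet : ∀ N : ℕ, ∃ M0 : ℕ, ∀ M ≥ M0, e ∣ M → ∀ P Q : PowerSeries F,
      PowerSeries.constantCoeff P = PowerSeries.constantCoeff Q →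
      ∃ x ∈ A M, (∀ i < N, PowerSeries.coeff i (al x) = PowerSeries.coeff i P) ∧
        (∀ i < N, PowerSeries.coeff i (be x) = PowerSeries.coeff i Q))
    {m : ℕ} {g : S} (hg : g ∈ A m) (hgh : ¬ h ∣ g) :
    ∃ a b : ℕ, (al g).order = a ∧ (be g).order = b ∧ (a + b : ℝ) ≤ k * δ * m := by
  have g1 : al g ≠ 0 := fun hc => hgh (dvd_of_al A hD hk he hek hh hp al be h1 h2 hjet hg (Or.inl hc))
  have g2 : be g ≠ 0 := fun hc => hgh (dvd_of_al A hD hk he hek hh hp al be h1 h2 hjet hg (Or.inr hc))
  refine ⟨(al g).order.toNat, (be g).order.toNat, ?_, ?_, ?_⟩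
  · exact (ENat.natCast_toNat (PowerSeries.order_eq_top.not.2 g1)).symm
  · exact (ENat.natCast_toNat (PowerSeries.order_eq_top.not.2 g2)).symm
  · refine bez A hD hk he hek hh hp al be h1 h2 hjet hg hgh ?_ ?_
    · intro i hi; exact PowerSeries.coeff_of_lt_order_toNat i hi
    · intro i hi; exact PowerSeries.coeff_of_lt_order_toNat i hi

end graded

end Pool.Agent.TH13.NB
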