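import Pool.Agent.TH836.NS.Defs
import Pool.Agent.W607.OpenSep
import Pool.Agent.TH13.NB.Bez

/-! Dimension counts for homogeneous ideals. -/

namespace Pool.Agent.TH13.NB

open MvPolynomial Module Pool.Agent.W607 Pool.Agent.TH836.NS

theorem fr {F V W : Type*} [Field F] [AddCommGroup V] [Module F V] [AddCommGroup W] [Module F W]
    (f : V →ₗ[F] W) (K : Submodule F V) [FiniteDimensional F K] :
    finrank F (K.map f) + finrank F (K ⊓ LinearMap.ker f : Submodule F V) = finrank F K := by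
  have h1 := LinearMap.finrank_range_add_finrank_ker (f.domRestrict K)
  have h2 : LinearMap.range (f.domRestrict K) = K.map f := by
    ext y
    constructor
    · rintro ⟨x, rfl⟩; exact ⟨x, x.2, rfl⟩
    · rintro ⟨x, hx, rfl⟩; exact ⟨⟨x, hx⟩, rfl⟩
  have h3 : (LinearMap.ker (f.domRestrict K)).map K.subtype = K ⊓ LinearMap.ker f := by
    ext y
    constructor
    · rintro ⟨x, hx, rfl⟩; exact ⟨x.2, hx⟩
    · rintro ⟨hy, hy2⟩; exact ⟨⟨y, hy⟩, hy2, rfl⟩
  rw [h2] at h1
  rw [← h3, ← h1]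
  congr 1
  exact (Submodule.equivMapOfInjective _ (Submodule.injective_subtype _) _).symm.finrank_eq

variable {N : ℕ}

/-- forms of degree `d` -/
noncomputable abbrev Hd (N d : ℕ) : Submodule ℂ (MvPolynomial (Fin (N + 1)) ℂ) :=
  homogeneousSubmodule (Fin (N + 1)) ℂ d

instance finHd (d : ℕ) : FiniteDimensional ℂ (Hd N d) :=
  Module.Finite.iff_fg.2 (homogeneousSubmodule_fg (Fin (N + 1)) ℂ d)

/-- the elements of an ideal as a subspace -/
noncomputable def idl (P : Ideal (MvPolynomial (Fin (N + 1)) ℂ)) : Submodule ℂ (MvPolynomial (Fin (N + 1)) ℂ) :=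
  P.restrictScalars ℂ

theorem ker_mk (P : Ideal (MvPolynomial (Fin (N + 1)) ℂ)) :
    LinearMap.ker (Ideal.Quotient.mkₐ ℂ P).toLinearMap = idl P := by
  ext f
  rw [LinearMap.mem_ker]
  exact Ideal.Quotient.eq_zero_iff_mem

theorem hilb_add (P : Ideal (MvPolynomial (Fin (N + 1)) ℂ)) (d : ℕ) :
    hilb P d + finrank ℂ (Hd N d ⊓ idl P : Submodule ℂ (MvPolynomial (Fin (N + 1)) ℂ)) =
      finrank ℂ (Hd N d) := by
  have := fr (Ideal.Quotient.mkₐ ℂ P).toLinearMap (Hd N d)
  rw [ker_mk] at this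
  exact this

/-- forms of degree `M` divisible by `G` -/
noncomputable def mulH (G : MvPolynomial (Fin (N + 1)) ℂ) (m : ℕ) :
    Submodule ℂ (MvPolynomial (Fin (N + 1)) ℂ) := (Hd N m).map (LinearMap.mulLeft ℂ G)

theorem mulH_le {G : MvPolynomial (Fin (N + 1)) ℂ} {m d : ℕ} (hG : G.IsHomogeneous m) :
    mulH G d ≤ Hd N (m + d) := by
  rintro _ ⟨f, hf, rfl⟩
  exact hG.mul hf

theorem finrank_sup (P : Ideal (MvPolynomial (Fin (N + 1)) ℂ)) (hP : P.IsPrime)
    {G : MvPolynomial (Fin (N + 1)) ℂ} {m d : ℕ} (hG : G.IsHomogeneous m) (hGP : G ∉ P) :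
    finrank ℂ ((Hd N (m + d) ⊓ idl P) ⊔ mulH G d : Submodule ℂ (MvPolynomial (Fin (N + 1)) ℂ)) =
      finrank ℂ (Hd N (m + d) ⊓ idl P : Submodule ℂ (MvPolynomial (Fin (N + 1)) ℂ)) + hilb P d := by
  set K : Submodule ℂ (MvPolynomial (Fin (N + 1)) ℂ) := (Hd N (m + d) ⊓ idl P) ⊔ mulH G d with hK
  have hKle : K ≤ Hd N (m + d) := sup_le inf_le_left (mulH_le hG)
  have : FiniteDimensional ℂ K := Submodule.finiteDimensional_of_le hKle
  have h1 := fr (Ideal.Quotient.mkₐ ℂ P).toLinearMap K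
  rw [ker_mk] at h1
  have h2 : K ⊓ idl P = Hd N (m + d) ⊓ idl P := by
    apply le_antisymm
    · exact inf_le_inf_right _ hKle
    · exact le_inf (le_sup_left) inf_le_right
  have h3 : K.map (Ideal.Quotient.mkₐ ℂ P).toLinearMap =
      ((Hd N d).map (Ideal.Quotient.mkₐ ℂ P).toLinearMap).map
        (LinearMap.mulLeft ℂ (Ideal.Quotient.mkₐ ℂ P G)) := by
    rw [hK, Submodule.map_sup]
    have e1 : (Hd N (m + d) ⊓ idl P).map (Ideal.Quotient.mkₐ ℂ P).toLinearMap = ⊥ := by
      rw [eq_bot_iff]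
      rintro _ ⟨f, hf, rfl⟩
      rw [Submodule.mem_bot]
      exact Ideal.Quotient.eq_zero_iff_mem.2 hf.2
    rw [e1, bot_sup_eq]
    unfold mulH
    rw [← Submodule.map_comp, ← Submodule.map_comp]
    congr 1
  have h4 : finrank ℂ (K.map (Ideal.Quotient.mkₐ ℂ P).toLinearMap) = hilb P d := by
    rw [h3]
    have hinj : Function.Injective (LinearMap.mulLeft ℂ (Ideal.Quotient.mkₐ ℂ P G)) := by
      intro a b hab
      have h0 : (Ideal.Quotient.mkₐ ℂ P G) ≠ 0 := fun hc => hGP (Ideal.Quotient.eq_zero_iff_mem.1 hc)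
      exact mul_left_cancel₀ h0 hab
    exact (Submodule.equivMapOfInjective _ hinj _).symm.finrank_eq
  rw [h2, h4] at h1
  omega

/-- the image of a linear map which kills `P` and the multiples of `G` -/
theorem finrank_map_le (P : Ideal (MvPolynomial (Fin (N + 1)) ℂ)) (hP : P.IsPrime)
    {G : MvPolynomial (Fin (N + 1)) ℂ} {m d : ℕ} (hG : G.IsHomogeneous m) (hGP : G ∉ P)
    {W : Type*} [AddCommGroup W] [Module ℂ W] (φ : MvPolynomial (Fin (N + 1)) ℂ →ₗ[ℂ] W)
    (h1 : ∀ f ∈ P, f.IsHomogeneous (m + d) → φ f = 0)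
    (h2 : ∀ f : MvPolynomial (Fin (N + 1)) ℂ, f.IsHomogeneous d → φ (G * f) = 0) :
    finrank ℂ ((Hd N (m + d)).map φ) + hilb P d ≤ hilb P (m + d) := by
  have h3 := fr φ (Hd N (m + d))
  have h4 := hilb_add P (m + d)
  have h5 := finrank_sup P hP (d := d) hG hGP
  have h6 : (Hd N (m + d) ⊓ idl P) ⊔ mulH G d ≤ Hd N (m + d) ⊓ LinearMap.ker φ := by
    apply sup_le
    · rintro f ⟨hf, hf2⟩
      exact ⟨hf, h1 f hf2 hf⟩
    · intro f hf
      refine ⟨mulH_le hG hf, ?_⟩
      obtain ⟨f', hf', rfl⟩ := hf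
      exact h2 f' hf'
  have : FiniteDimensional ℂ (Hd N (m + d) ⊓ LinearMap.ker φ : Submodule ℂ (MvPolynomial (Fin (N + 1)) ℂ)) :=
    Submodule.finiteDimensional_of_le inf_le_left
  have h7 := Submodule.finrank_mono h6
  omega

theorem hc_mul {G g : MvPolynomial (Fin (N + 1)) ℂ} {k : ℕ} (hG : G.IsHomogeneous k) (d : ℕ) :
    homogeneousComponent (k + d) (G * g) = G * homogeneousComponent d g := by
  have h1 : ∀ i, homogeneousComponent (k + d) (G * homogeneousComponent i g) =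
      if i = d then G * homogeneousComponent d g else 0 := by
    intro i
    rw [homogeneousComponent_of_mem (hG.mul (homogeneousComponent_isHomogeneous i g))]
    by_cases h : i = d
    · subst h; simp
    · rw [if_neg (by omega), if_neg h]
  conv_lhs => rw [← sum_homogeneousComponent g, Finset.mul_sum, map_sum]
  simp only [h1]
  rw [Finset.sum_ite_eq']
  split_ifs with h
  · rfl
  · rw [Finset.mem_range, not_lt] at h
    rw [homogeneousComponent_eq_zero _ _ (by omega), mul_zero]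

/-- the Hilbert function of a hypersurface section -/
theorem hilb_section (I P : Ideal (MvPolynomial (Fin (N + 1)) ℂ)) (hI : I.IsPrime) (hIh : Hmg I)
    {G : MvPolynomial (Fin (N + 1)) ℂ} {k d : ℕ} (hG : G.IsHomogeneous k) (hGI : G ∉ I)
    (h : ∀ f : MvPolynomial (Fin (N + 1)) ℂ, f.IsHomogeneous (k + d) →
      (f ∈ P ↔ f ∈ I ⊔ Ideal.span {G})) :
    hilb P (k + d) + hilb I d = hilb I (k + d) := by
  have h1 := hilb_add P (k + d)
  have h2 := hilb_add I (k + d)
  have h3 := finrank_sup I hI (d := d) hG hGI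
  have h4 : Hd N (k + d) ⊓ idl P = (Hd N (k + d) ⊓ idl I) ⊔ mulH G d := by
    apply le_antisymm
    · rintro f ⟨hf, hfP⟩
      obtain ⟨i, hi, g, hg, hig⟩ := Submodule.mem_sup.1 ((h f hf).1 hfP)
      obtain ⟨g', rfl⟩ := Ideal.mem_span_singleton.1 hg
      have e1 : homogeneousComponent (k + d) f = f := by
        rw [homogeneousComponent_of_mem hf, if_pos rfl]
      have e2 : homogeneousComponent (k + d) (G * g') = G * homogeneousComponent d g' := hc_mul hG d
      rw [← hig, map_add, e2] at e1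
      rw [← hig, ← e1]
      apply Submodule.add_mem_sup
      · exact ⟨homogeneousComponent_isHomogeneous _ _, hIh i hi _⟩
      · exact ⟨_, homogeneousComponent_isHomogeneous _ _, rfl⟩
    · apply sup_le
      · rintro f ⟨hf, hf2⟩
        exact ⟨hf, (h f hf).2 (Ideal.mem_sup_left hf2)⟩
      · intro f hf
        have hf1 := mulH_le hG hf
        refine ⟨hf1, (h f hf1).2 (Ideal.mem_sup_right ?_)⟩
        obtain ⟨f', hf', rfl⟩ := hf
        exact Ideal.mul_mem_right _ _ (Ideal.mem_span_singleton_self G)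
  rw [h4] at h1
  omega

end Pool.Agent.TH13.NB
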