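import Pool.Agent.TH13.NB.Jet
import Pool.Agent.TH836.NS.Proj

/-! The nodal series of a projective surface with an integral member with a formal node. -/

namespace Pool.Agent.TH13.NB

open MvPolynomial Module Pool.Agent.W607 Pool.Agent.TH836.NS Filter Topology

variable {N : ℕ}

/-- forms separate jets -/
theorem jets_forms {ℓ α β : MvPolynomial (Fin (N + 1)) ℂ} (hℓ : ℓ.IsHomogeneous 1)
    (hα : α.IsHomogeneous 1) (hβ : β.IsHomogeneous 1) {x : Fin (N + 1) → PP ℂ}
    (h1 : aeval x ℓ = 1) (ha : O 2 (aeval x α - MvPowerSeries.X 0))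
    (hb : O 2 (aeval x β - MvPowerSeries.X 1)) (A : ℕ) : ∀ d : ℕ, A ≤ d → ∀ p : PP ℂ,
    ∃ G : MvPolynomial (Fin (N + 1)) ℂ, G.IsHomogeneous d ∧ O (A + 1) (aeval x G - p) := by
  induction A with
  | zero =>
    intro d _ p
    refine ⟨C (cc p 0 0) * ℓ ^ d, ?_, ?_⟩
    · have := (isHomogeneous_C (Fin (N + 1)) (cc p 0 0)).mul (hℓ.pow d)
      simpa using this
    · intro a b hab
      have h2 : a = 0 := by omega
      have h3 : b = 0 := by omega
      subst h2; subst h3
      rw [map_mul, map_pow, h1, one_pow, mul_one, cc_sub, sub_eq_zero]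
      rw [← algebraMap_eq, AlgHom.commutes, Algebra.algebraMap_eq_smul_one, cc_smul]
      have := cc_mon (F := ℂ) 0 0 0 0
      simp only [pow_zero, mul_one, and_self, if_true] at this
      rw [this, mul_one]
  | succ A ih =>
    intro d hd p
    obtain ⟨G, hG, hGp⟩ := ih d (by omega) p
    set e : ℕ → ℂ := fun a => cc (p - aeval x G) a (A + 1 - a) with he
    refine ⟨G + ∑ a ∈ Finset.range (A + 2), C (e a) * (α ^ a * β ^ (A + 1 - a) * ℓ ^ (d - (A + 1))), ?_, ?_⟩
    · refine hG.add (IsHomogeneous.sum _ _ _ ?_)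
      intro a ha
      rw [Finset.mem_range] at ha
      have := (isHomogeneous_C (Fin (N + 1)) (e a)).mul (((hα.pow a).mul (hβ.pow (A + 1 - a))).mul
        (hℓ.pow (d - (A + 1))))
      have e1 : 0 + (1 * a + 1 * (A + 1 - a) + 1 * (d - (A + 1))) = d := by omega
      rwa [e1] at this
    · -- the difference
      have key : O (A + 1 + 1) (aeval x (∑ a ∈ Finset.range (A + 2),
          C (e a) * (α ^ a * β ^ (A + 1 - a) * ℓ ^ (d - (A + 1)))) -
          ∑ a ∈ Finset.range (A + 2), e a • ((MvPowerSeries.X 0 : PP ℂ) ^ a * MvPowerSeries.X 1 ^ (A + 1 - a))) := by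
        rw [map_sum, ← Finset.sum_sub_distrib]
        apply O.sum
        intro a ha
        rw [Finset.mem_range] at ha
        rw [map_mul, map_mul, map_mul, map_pow, map_pow, map_pow, h1, one_pow, mul_one,
          ← algebraMap_eq, AlgHom.commutes, Algebra.algebraMap_eq_smul_one, smul_mul_assoc, one_mul,
          ← smul_sub]
        apply O.smul
        have := mon_diff ‹O 2 (aeval x α - MvPowerSeries.X 0)› hb a (A + 1 - a)
        exact this.mono (by omega)
      have hsum : ∀ a b : ℕ, a + b < A + 1 + 1 → cc (∑ a ∈ Finset.range (A + 2),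
          e a • ((MvPowerSeries.X 0 : PP ℂ) ^ a * MvPowerSeries.X 1 ^ (A + 1 - a))) a b =
          if a + b = A + 1 then e a else 0 := by
        intro a b hab
        rw [cc, map_sum]
        have h2 : ∀ a' ∈ Finset.range (A + 2), MvPowerSeries.coeff (xx a b)
            (e a' • ((MvPowerSeries.X 0 : PP ℂ) ^ a' * MvPowerSeries.X 1 ^ (A + 1 - a'))) =
            if a' = a then (if a + b = A + 1 then e a else 0) else 0 := by
          intro a' ha'
          rw [Finset.mem_range] at ha'
          have h3 := cc_smul (e a') ((MvPowerSeries.X 0 : PP ℂ) ^ a' * MvPowerSeries.X 1 ^ (A + 1 - a')) a b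
          rw [cc] at h3
          rw [h3, cc_mon]
          by_cases h4 : a' = a
          · subst h4
            rw [if_pos rfl]
            by_cases h5 : a' + b = A + 1
            · rw [if_pos h5, if_pos ⟨rfl, by omega⟩, mul_one]
            · rw [if_neg h5, if_neg (by rintro ⟨_, h6⟩; omega), mul_zero]
          · rw [if_neg h4, if_neg (by rintro ⟨h6, _⟩; exact h4 h6.symm), mul_zero]
        rw [Finset.sum_congr rfl h2, Finset.sum_ite_eq' , if_pos (by rw [Finset.mem_range]; omega)]
      intro a b hab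
      rw [map_add]
      have h5 := key a b hab
      rw [cc_sub, hsum a b hab, sub_eq_zero] at h5
      rw [cc_sub, cc_add, h5]
      by_cases h6 : a + b = A + 1
      · rw [if_pos h6, he]
        simp only
        have h7 : A + 1 - a = b := by omega
        rw [h7, cc_sub]
        ring
      · rw [if_neg h6]
        have h7 := hGp a b (by omega)
        rw [cc_sub] at h7
        rw [add_zero]
        exact h7

/-- the imm property in terms of orders -/
theorem O_of_imm {g : PP ℂ} {i : Fin 2} (h00 : cc g 0 0 = 0)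
    (h10 : cc g 1 0 = if i = 0 then 1 else 0) (h01 : cc g 0 1 = if i = 0 then 0 else 1) :
    O 2 (g - MvPowerSeries.X i) := by
  intro a b hab
  rw [cc_sub]
  have e0 := cc_mon (F := ℂ) 1 0 a b
  have e1 := cc_mon (F := ℂ) 0 1 a b
  simp only [pow_one, pow_zero, mul_one, one_mul] at e0 e1
  fin_cases i
  · simp only [Fin.zero_eta, Fin.isValue, if_true] at h10 h01 ⊢
    rw [e0]
    rcases (show (a = 0 ∧ b = 0) ∨ (a = 1 ∧ b = 0) ∨ (a = 0 ∧ b = 1) by omega) with
      ⟨rfl, rfl⟩ | ⟨rfl, rfl⟩ | ⟨rfl, rfl⟩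
    · simp [h00]
    · simp [h10]
    · simp [h01]
  · simp only [Fin.mk_one, Fin.isValue, one_ne_zero, if_false] at h10 h01 ⊢
    rw [e1]
    rcases (show (a = 0 ∧ b = 0) ∨ (a = 1 ∧ b = 0) ∨ (a = 0 ∧ b = 1) by omega) with
      ⟨rfl, rfl⟩ | ⟨rfl, rfl⟩ | ⟨rfl, rfl⟩
    · simp [h00]
    · simp [h10]
    · simp [h01]

/-- the power series with given coefficients -/
noncomputable def mkp (f : ℕ → ℕ → ℂ) : PP ℂ := fun e => f (e 0) (e 1)

theorem cc_mkp (f : ℕ → ℕ → ℂ) (a b : ℕ) : cc (mkp f) a b = f a b := by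
  change f ((xx a b) 0) ((xx a b) 1) = f a b
  rw [xx_zero, xx_one]

/-- the map to the jets of order `A` -/
noncomputable def jm (A : ℕ) : PP ℂ →ₗ[ℂ] (Fin (A + 1) → ℂ) where
  toFun g i := cc g i.1 0
  map_add' f g := by ext i; exact cc_add f g _ _
  map_smul' c f := by ext i; simp [cc_smul]

/-- the triangle of the jets -/
noncomputable def jt (A : ℕ) : PP ℂ →ₗ[ℂ] ((Σ a : Fin (A + 1), Fin (A + 1 - a.1)) → ℂ) where
  toFun g i := cc g i.1.1 i.2.1
  map_add' f g := by ext i; exact cc_add f g _ _
  map_smul' c f := by ext i; simp [cc_smul]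

/-- the map to the jets on the other branch -/
noncomputable def jn (A : ℕ) : PP ℂ →ₗ[ℂ] (Fin (A + 1) → ℂ) where
  toFun g i := cc g 0 i.1
  map_add' f g := by ext i; exact cc_add f g _ _
  map_smul' c f := by ext i; simp [cc_smul]

theorem exists_nodal (I P₀ : Ideal (MvPolynomial (Fin (N + 1)) ℂ)) (hI : I.IsPrime) (hIh : Hmg I)
    {δ : ℝ} (hδ : 0 < δ)
    (hgr : Tendsto (fun t : ℕ => 2 * (hilb I t : ℝ) / (t : ℝ) ^ 2) atTop (𝓝 δ))
    {ℓ F₀ : MvPolynomial (Fin (N + 1)) ℂ} {k : ℕ} (hk : 1 ≤ k) (hℓ : ℓ.IsHomogeneous 1)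
    (hF : F₀.IsHomogeneous k) (hF0 : F₀ ∉ I) (hP : P₀.IsPrime) (_hPh : Hmg P₀)
    (hsat : ∃ c : ℕ, ∀ t : ℕ, c ≤ t → ∀ f : MvPolynomial (Fin (N + 1)) ℂ, f.IsHomogeneous t →
      (f ∈ P₀ ↔ f ∈ I ⊔ Ideal.span {F₀}))
    {x : Fin (N + 1) → PP ℂ} (hx : FormalNode I ℓ F₀ x) :
    ∃ V : Nodal ℂ k δ, ∀ d, V.V d =
      (homogeneousSubmodule (Fin (N + 1)) ℂ d).map (aeval x : _ →ₐ[ℂ] PP ℂ).toLinearMap := by
  obtain ⟨c, hc⟩ := hsat
  obtain ⟨α, β, hα, hβ, a00, a10, a01, b00, b10, b01⟩ := hx.imm
  have hOa : O 2 (aeval x α - MvPowerSeries.X 0) := O_of_imm a00 (by simpa using a10) (by simpa using a01)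
  have hOb : O 2 (aeval x β - MvPowerSeries.X 1) := O_of_imm b00 (by simpa using b10) (by simpa using b01)
  have jets := jets_forms hℓ hα hβ hx.chart hOa hOb
  set φ : MvPolynomial (Fin (N + 1)) ℂ →ₗ[ℂ] PP ℂ := (aeval x : _ →ₐ[ℂ] PP ℂ).toLinearMap with hφ
  have hφa : ∀ f, φ f = aeval x f := fun f => rfl
  -- the kernel
  have hker : ∀ (m : ℕ) (G : MvPolynomial (Fin (N + 1)) ℂ), G.IsHomogeneous m → aeval x G = 0 → G ∈ I := by
    intro m G hG hG0
    by_contra hGI
    have h1 : ∀ d : ℕ, ((d : ℝ) ^ 2) / 2 ≤ (hilb I (m + d) : ℝ) - hilb I d := by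
      intro d
      have h2 := finrank_map_le I hI (d := d) hG hGI ((jt (m + d)).comp φ)
        (by intro f hf _; rw [LinearMap.comp_apply, hφa, hx.zero f hf, map_zero])
        (by intro f _; rw [LinearMap.comp_apply, hφa, map_mul, hG0, zero_mul, map_zero])
      have h3 : (Hd N (m + d)).map ((jt (m + d)).comp φ) = ⊤ := by
        rw [eq_top_iff]
        intro y _
        obtain ⟨G', hG', hO⟩ := jets (m + d) (m + d) le_rfl
          (mkp fun a b => if h : a < m + d + 1 ∧ b < m + d + 1 - a then y ⟨⟨a, h.1⟩, ⟨b, h.2⟩⟩ else 0)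
        refine ⟨G', hG', ?_⟩
        ext i
        have h4 := hO i.1.1 i.2.1 (by have := i.1.2; have := i.2.2; omega)
        rw [cc_sub, sub_eq_zero, cc_mkp, dif_pos ⟨i.1.2, i.2.2⟩] at h4
        exact h4
      rw [h3, finrank_top, finrank_fintype_fun_eq_card, Fintype.card_sigma] at h2
      simp only [Fintype.card_fin] at h2
      have h6 : ∑ a : Fin (m + d + 1), (m + d + 1 - a.1) = ∑ a ∈ Finset.range (m + d + 1), (m + d + 1 - a) :=
        Fin.sum_univ_eq_sum_range (fun a => m + d + 1 - a) (m + d + 1)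
      have h7 : ∀ n : ℕ, (n : ℝ) ^ 2 / 2 ≤ ((∑ a ∈ Finset.range (n + 1), (n + 1 - a) : ℕ) : ℝ) := by
        intro n
        induction n with
        | zero => simp
        | succ n ih =>
          rw [Finset.sum_range_succ']
          have e3 : ∑ a ∈ Finset.range (n + 1), (n + 1 + 1 - (a + 1)) = ∑ a ∈ Finset.range (n + 1), (n + 1 - a) := by
            apply Finset.sum_congr rfl; intro a _; omega
          rw [e3]
          push_cast at ih ⊢
          nlinarith
      have h8 := h7 (m + d)
      rw [← h6] at h8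
      have h9 : ((∑ a : Fin (m + d + 1), (m + d + 1 - a.1) : ℕ) : ℝ) + hilb I d ≤ hilb I (m + d) := by
        exact_mod_cast h2
      have h10 : (d : ℝ) ^ 2 / 2 ≤ ((m + d : ℕ) : ℝ) ^ 2 / 2 := by
        have : (d : ℝ) ≤ ((m + d : ℕ) : ℝ) := by push_cast; linarith [(Nat.cast_nonneg m : (0 : ℝ) ≤ m)]
        have hd0 : (0 : ℝ) ≤ d := Nat.cast_nonneg d
        nlinarith
      linarith
    -- limit
    have l1 : Tendsto (fun d : ℕ => (hilb I d : ℝ) / (d : ℝ) ^ 2) atTop (𝓝 (δ / 2)) := by
      have := hgr.div_const 2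
      refine this.congr ?_
      intro d; ring
    have l2 : Tendsto (fun d : ℕ => (hilb I (m + d) : ℝ) / (d : ℝ) ^ 2) atTop (𝓝 (δ / 2)) := by
      have h2 := l1.comp (tendsto_add_atTop_nat m)
      have h3 : Tendsto (fun d : ℕ => ((d + m : ℕ) : ℝ) / (d : ℝ)) atTop (𝓝 1) := by
        have h4 : Tendsto (fun d : ℕ => 1 + (m : ℝ) / (d : ℝ)) atTop (𝓝 (1 + 0)) :=
          tendsto_const_nhds.add (tendsto_const_div_atTop_nhds_zero_nat (m : ℝ))
        rw [add_zero] at h4
        refine h4.congr' ?_
        filter_upwards [eventually_gt_atTop 0] with d hd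
        have : (d : ℝ) ≠ 0 := by positivity
        push_cast
        field_simp
      have h5 := h2.mul (h3.pow 2)
      rw [one_pow, mul_one] at h5
      refine h5.congr' ?_
      filter_upwards [eventually_gt_atTop 0] with d hd
      have hd' : (d : ℝ) ≠ 0 := by positivity
      have hdm : ((d + m : ℕ) : ℝ) ≠ 0 := by
        have : 0 < d + m := by omega
        exact_mod_cast this.ne'
      simp only [Function.comp]
      rw [add_comm m d]
      field_simp
    have l3 := l2.sub l1
    rw [sub_self] at l3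
    have l4 : (1 : ℝ) / 2 ≤ 0 := by
      refine ge_of_tendsto l3 ?_
      filter_upwards [eventually_gt_atTop 0] with d hd
      have hd' : (0 : ℝ) < d := by exact_mod_cast hd
      have := h1 d
      rw [← sub_div, le_div_iff₀ (by positivity)]
      linarith
    norm_num at l4
  have hfin : ∀ d, FiniteDimensional ℂ ((Hd N d).map φ) := fun d => inferInstance
  have hrank : ∀ d, finrank ℂ ((Hd N d).map φ) = hilb I d := by
    intro d
    have h1 := fr φ (Hd N d)
    have h2 := hilb_add I d
    have h3 : Hd N d ⊓ LinearMap.ker φ = Hd N d ⊓ idl I := by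
      apply le_antisymm
      · rintro f ⟨hf, hf2⟩; exact ⟨hf, hker d f hf hf2⟩
      · rintro f ⟨hf, hf2⟩; exact ⟨hf, hx.zero f hf2⟩
    rw [h3] at h1
    omega
  -- sections vanishing on a branch
  have hbr : ∀ (d : ℕ) (G : MvPolynomial (Fin (N + 1)) ℂ), G.IsHomogeneous d →
      ((∀ a, cc (aeval x G) a 0 = 0) ∨ (∀ b, cc (aeval x G) 0 b = 0)) → G ∈ P₀ := by
    intro d G hG hG0
    by_contra hGP
    have key : ∀ A : ℕ, ∀ M : ℕ, A ≤ M → c ≤ M → (A + 1 : ℝ) ≤ (hilb I (M + d + k) : ℝ) -
        hilb I (M + k) - hilb I (M + d) + hilb I M := by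
      intro A M hAM hcM
      have hP1 : hilb P₀ (k + (M + d)) + hilb I (M + d) = hilb I (k + (M + d)) :=
        hilb_section I P₀ hI hIh hF hF0 (fun f hf => hc _ (by omega) f hf)
      have hP2 : hilb P₀ (k + M) + hilb I M = hilb I (k + M) :=
        hilb_section I P₀ hI hIh hF hF0 (fun f hf => hc _ (by omega) f hf)
      -- elements of P₀ vanish on the branches
      have hz : ∀ f ∈ P₀, f.IsHomogeneous (d + (k + M)) → (∀ a, cc (aeval x f) a 0 = 0) ∧
          ∀ b, cc (aeval x f) 0 b = 0 := by
        intro f hf hfh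
        obtain ⟨i, hi, g, hg, hig⟩ := Submodule.mem_sup.1 ((hc _ (by omega) f hfh).1 hf)
        obtain ⟨g', rfl⟩ := Ideal.mem_span_singleton.1 hg
        have e1 : aeval x f = uv ℂ * aeval x g' := by
          rw [← hig, map_add, hx.zero i hi, map_mul, hx.node, zero_add]
        rw [e1]
        exact ⟨fun a => cc_uv_mul_left _ _, fun b => cc_uv_mul_right _ _⟩
      have hjt : ∀ p : PP ℂ, ∃ G' : MvPolynomial (Fin (N + 1)) ℂ, G'.IsHomogeneous (d + (k + M)) ∧
          O (A + 1) (aeval x G' - p) := jets A (d + (k + M)) (by omega)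
      have hle : A + 1 + hilb P₀ (k + M) ≤ hilb P₀ (d + (k + M)) := by
        rcases hG0 with hG0 | hG0
        · have h2 := finrank_map_le P₀ hP (d := k + M) hG hGP ((jm A).comp φ)
            (by
              intro f hf hfh
              ext i
              exact (hz f hf hfh).1 i.1)
            (by
              intro f _
              ext i
              change cc (aeval x (G * f)) i.1 0 = 0
              rw [map_mul, cc_mul_left]
              apply Finset.sum_eq_zero
              rintro ⟨p1, p2⟩ _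
              simp only
              rw [hG0, zero_mul])
          have h3 : (Hd N (d + (k + M))).map ((jm A).comp φ) = ⊤ := by
            rw [eq_top_iff]
            intro y _
            obtain ⟨G', hG', hO⟩ := hjt (mkp fun a _ => if h : a < A + 1 then y ⟨a, h⟩ else 0)
            refine ⟨G', hG', ?_⟩
            ext i
            have h4 := hO i.1 0 (by have := i.2; omega)
            rw [cc_sub, sub_eq_zero, cc_mkp, dif_pos i.2] at h4
            exact h4
          rw [h3, finrank_top, finrank_fin_fun] at h2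
          exact h2
        · have h2 := finrank_map_le P₀ hP (d := k + M) hG hGP ((jn A).comp φ)
            (by
              intro f hf hfh
              ext i
              exact (hz f hf hfh).2 i.1)
            (by
              intro f _
              ext i
              change cc (aeval x (G * f)) 0 i.1 = 0
              rw [map_mul, cc_mul_right]
              apply Finset.sum_eq_zero
              rintro ⟨p1, p2⟩ _
              simp only
              rw [hG0, zero_mul])
          have h3 : (Hd N (d + (k + M))).map ((jn A).comp φ) = ⊤ := by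
            rw [eq_top_iff]
            intro y _
            obtain ⟨G', hG', hO⟩ := hjt (mkp fun _ b => if h : b < A + 1 then y ⟨b, h⟩ else 0)
            refine ⟨G', hG', ?_⟩
            ext i
            have h4 := hO 0 i.1 (by have := i.2; omega)
            rw [cc_sub, sub_eq_zero, cc_mkp, dif_pos i.2] at h4
            exact h4
          rw [h3, finrank_top, finrank_fin_fun] at h2
          exact h2
      have e1 : d + (k + M) = k + (M + d) := by ring
      have e2 : M + d + k = k + (M + d) := by ring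
      have e3 : M + k = k + M := by ring
      rw [e1] at hle
      rw [e2, e3]
      have h5 : (A + 1 + hilb P₀ (k + M) : ℝ) ≤ hilb P₀ (k + (M + d)) := by exact_mod_cast hle
      have h6 : (hilb P₀ (k + (M + d)) : ℝ) + hilb I (M + d) = hilb I (k + (M + d)) := by exact_mod_cast hP1
      have h7 : (hilb P₀ (k + M) : ℝ) + hilb I M = hilb I (k + M) := by exact_mod_cast hP2
      linarith
    rcases Nat.eq_zero_or_pos d with hd | hd
    · subst hd
      have := key 0 c (by omega) le_rfl
      simp only [add_zero] at this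
      norm_num at this
    · obtain ⟨A, hA⟩ := exists_nat_gt (k * d * δ)
      have h1 := count_le (D := fun t => (hilb I t : ℝ)) hgr hd hk (c := (A : ℝ) + 1) (M := A + c) (by
        intro i j
        exact key A (A + c + i * d + j * k) (by nlinarith [Nat.zero_le (i * d), Nat.zero_le (j * k)])
          (by nlinarith [Nat.zero_le (i * d), Nat.zero_le (j * k)]))
      linarith
  refine ⟨{ V := fun d => (Hd N d).map φ
            fin := hfin
            mul_mem := ?_
            one_mem := ?_
            uv_mem := ?_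
            c := c
            prime := ?_
            jets := ?_
            growth := ?_
            k_pos := hk
            δ_pos := hδ }, fun d => rfl⟩
  · rintro d e _ _ ⟨f, hf, rfl⟩ ⟨g, hg, rfl⟩
    refine ⟨f * g, hf.mul hg, ?_⟩
    rw [hφa, hφa, hφa, map_mul]
  · refine ⟨ℓ ^ k, ?_, ?_⟩
    · have := hℓ.pow k
      rwa [one_mul] at this
    · rw [hφa, map_pow, hx.chart, one_pow]
  · exact ⟨F₀, hF, hx.node⟩
  · rintro d _ hcd hkd ⟨G, hG, rfl⟩ hG0
    rw [hφa] at hG0 ⊢
    have h1 := hbr d G hG hG0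
    obtain ⟨i, hi, g, hg, hig⟩ := Submodule.mem_sup.1 ((hc d hcd G hG).1 h1)
    obtain ⟨g', rfl⟩ := Ideal.mem_span_singleton.1 hg
    obtain ⟨e, rfl⟩ := Nat.exists_eq_add_of_le hkd
    have e1 : homogeneousComponent (k + e) G = G := by
      rw [homogeneousComponent_of_mem hG, if_pos rfl]
    rw [← hig, map_add, hc_mul hF e] at e1
    refine ⟨aeval x (homogeneousComponent e g'), ?_, ?_⟩
    · rw [Nat.add_sub_cancel_left]
      exact ⟨_, homogeneousComponent_isHomogeneous _ _, rfl⟩
    · conv_lhs => rw [← hig, ← e1]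
      rw [map_add, hx.zero _ (hIh i hi _), zero_add, map_mul, hx.node]
  · intro A
    refine ⟨A, fun d hd p => ?_⟩
    obtain ⟨G, hG, hO⟩ := jets A d hd p
    refine ⟨aeval x G, ⟨G, hG, rfl⟩, fun a b hab => ?_⟩
    have := hO a b (by omega)
    rw [cc_sub, sub_eq_zero] at this
    exact this
  · refine hgr.congr ?_
    intro d
    rw [hrank]

end Pool.Agent.TH13.NB
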